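import Mathlib

/-! ZS-ROOT (job 3149, helper929 for helper142): the diagonal case -/

set_option autoImplicit false
set_option linter.unusedSectionVars false

open Matrix

namespace Pool.Agent.Y929.ZS

section

variable {F ι : Type} [Field F] [CharZero F] [Fintype ι] [DecidableEq ι]

/-- the data in the eigenbasis -/
structure Dat (x : ι → F) (c : F) (J : Matrix ι ι F) (s : ι → ι) (𝔤 : Submodule F (Matrix ι ι F)) :
    Prop where
  x0 : ∀ a, x a ≠ 0
  xs : ∀ a, x a * x (s a) = c
  ss : ∀ a, s (s a) = a
  sne : ∀ a, s a ≠ a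
  Jz : ∀ a b, b ≠ s a → J a b = 0
  Jn : ∀ a, J a (s a) ≠ 0
  Js : ∀ a, J (s a) a = -J a (s a)
  gen : ∀ a b d e, a ≠ b → x a * x e = x d * x b → (d = a ∧ e = b) ∨ (d = s b ∧ e = s a)
  sim : ∀ Z ∈ 𝔤, ∃ μ : F, Zᵀ * J + J * Z = μ • J
  br : ∀ X ∈ 𝔤, ∀ Y ∈ 𝔤, X * Y - Y * X ∈ 𝔤
  ad : ∀ Z ∈ 𝔤, (Matrix.of fun a b => x a / x b * Z a b) ∈ 𝔤
  irr : ∀ W : Submodule F (ι → F), (∀ Z ∈ 𝔤, ∀ w ∈ W, Z *ᵥ w ∈ W) → W = ⊥ ∨ W = ⊤

variable {x : ι → F} {c : F} {J : Matrix ι ι F} {s : ι → ι} {𝔤 : Submodule F (Matrix ι ι F)}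

/-- the root vectors -/
def EE (J : Matrix ι ι F) (s : ι → ι) (a b : ι) : Matrix ι ι F :=
  Matrix.of fun p q => (if p = a ∧ q = b then 1 else 0) -
    J a (s a) / J b (s b) * (if p = s b ∧ q = s a then 1 else 0)

theorem rel (h : Dat x c J s 𝔤) {Z : Matrix ι ι F} {μ : F} (hZ : Zᵀ * J + J * Z = μ • J) (a b : ι) :
    J b (s b) * Z b a + J a (s a) * Z (s a) (s b) = μ * (if s b = s a then J a (s a) else 0) := by
  have h1 := congrFun (congrFun hZ a) (s b)
  simp only [Matrix.add_apply, Matrix.mul_apply, Matrix.transpose_apply, Matrix.smul_apply,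
    smul_eq_mul] at h1
  rw [Finset.sum_eq_single b, Finset.sum_eq_single (s a)] at h1
  · rw [mul_comm (J b (s b)) (Z b a), h1]
    congr 1
    by_cases hab : s b = s a
    · rw [if_pos hab, hab]
    · rw [if_neg hab, h.Jz _ _ hab]
  · intro k _ hk
    rw [h.Jz a k hk, zero_mul]
  · intro hk
    exact absurd (Finset.mem_univ _) hk
  · intro k _ hk
    have : s b ≠ s k := by
      intro h2
      apply hk
      rw [← h.ss k, ← h2, h.ss]
    rw [h.Jz k (s b) this, mul_zero]
  · intro hk
    exact absurd (Finset.mem_univ _) hk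

/-- polynomials in the adjoint action -/
theorem ad_poly (h : Dat x c J s 𝔤) {Z : Matrix ι ι F} (hZ : Z ∈ 𝔤) (p : Polynomial F) :
    (Matrix.of fun a b => p.eval (x a / x b) * Z a b) ∈ 𝔤 := by
  induction p using Polynomial.induction_on with
  | C r =>
    have : (Matrix.of fun a b => (Polynomial.C r).eval (x a / x b) * Z a b) = r • Z := by
      ext a b
      simp
    rw [this]
    exact 𝔤.smul_mem _ hZ
  | add p q hp hq =>
    have : (Matrix.of fun a b => (p + q).eval (x a / x b) * Z a b) =
        (Matrix.of fun a b => p.eval (x a / x b) * Z a b) +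
        (Matrix.of fun a b => q.eval (x a / x b) * Z a b) := by
      ext a b
      simp [add_mul]
    rw [this]
    exact 𝔤.add_mem hp hq
  | monomial n r hp =>
    have h1 := h.ad _ hp
    have : (Matrix.of fun a b => (Polynomial.C r * Polynomial.X ^ (n + 1)).eval (x a / x b) * Z a b) =
        (Matrix.of fun a b => x a / x b * (Matrix.of fun a b =>
          (Polynomial.C r * Polynomial.X ^ n).eval (x a / x b) * Z a b) a b) := by
      ext a b
      simp only [Matrix.of_apply, Polynomial.eval_mul, Polynomial.eval_C, Polynomial.eval_pow,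
        Polynomial.eval_X]
      ring
    rw [this]
    exact h1

/-- separation -/
theorem sep (x0 : F) (S : Finset F) : ∃ p : Polynomial F, p.eval x0 = 1 ∧
    ∀ y ∈ S, y ≠ x0 → p.eval y = 0 := by
  classical
  refine ⟨∏ y ∈ S.erase x0, (Polynomial.C (x0 - y)⁻¹ * (Polynomial.X - Polynomial.C y)), ?_, ?_⟩
  · rw [Polynomial.eval_prod]
    refine Finset.prod_eq_one fun y hy => ?_
    have : x0 - y ≠ 0 := sub_ne_zero.2 (Finset.ne_of_mem_erase hy).symm
    simp [this]
  · intro y hy hne
    rw [Polynomial.eval_prod]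
    refine Finset.prod_eq_zero (Finset.mem_erase.2 ⟨hne, hy⟩) ?_
    simp

/-- STEP 1 -/
theorem root_of (h : Dat x c J s 𝔤) {Z : Matrix ι ι F} (hZ : Z ∈ 𝔤) {a b : ι} (hab : a ≠ b)
    (hne : Z a b ≠ 0) : EE J s a b ∈ 𝔤 := by
  classical
  obtain ⟨p, hp1, hp2⟩ := sep (x a / x b)
    (Finset.univ.image fun q : ι × ι => x q.1 / x q.2)
  have h1 := ad_poly h hZ p
  obtain ⟨μ, hμ⟩ := h.sim Z hZ
  have hjb := h.Jn b
  have hrel : Z (s b) (s a) = -(J a (s a) / J b (s b)) * Z a b := by
    have h2 := rel h hμ b a
    have h3 : s a ≠ s b := by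
      intro h4
      apply hab
      rw [← h.ss a, h4, h.ss]
    rw [if_neg h3, mul_zero] at h2
    field_simp
    linear_combination h2
  have hq0 : x (s b) / x (s a) = x a / x b := by
    rw [div_eq_div_iff (h.x0 _) (h.x0 _)]
    have := h.xs a
    have := h.xs b
    linear_combination h.xs b - h.xs a
  -- the entries
  have hent : ∀ d e, p.eval (x d / x e) * Z d e =
      if (d = a ∧ e = b) ∨ (d = s b ∧ e = s a) then Z d e else 0 := by
    intro d e
    by_cases hq : x d / x e = x a / x b
    · rw [hq, hp1, one_mul]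
      rw [div_eq_div_iff (h.x0 e) (h.x0 b)] at hq
      rw [if_pos]
      exact h.gen a b d e hab hq.symm
    · rw [hp2 _ (Finset.mem_image.2 ⟨(d, e), Finset.mem_univ _, rfl⟩) hq, zero_mul, if_neg]
      rintro (⟨rfl, rfl⟩ | ⟨rfl, rfl⟩)
      · exact hq rfl
      · exact hq hq0
  by_cases hb : b = s a
  · have hsb : s b = a := by rw [hb, h.ss]
    have hr : J a (s a) / J b (s b) = -1 := by
      rw [hsb, hb, h.Js, div_neg, div_self (h.Jn a)]
    have h2 : EE J s a b = (2 * (Z a b)⁻¹) • (Matrix.of fun d e => p.eval (x d / x e) * Z d e) := by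
      ext d e
      simp only [EE, Matrix.of_apply, Matrix.smul_apply, smul_eq_mul]
      rw [hent, hr, hsb, ← hb]
      by_cases hc : d = a ∧ e = b
      · rw [if_pos hc, if_pos (Or.inl hc), hc.1, hc.2]
        field_simp
        norm_num
      · rw [if_neg hc, if_neg (by tauto)]
        ring
    rw [h2]
    exact 𝔤.smul_mem _ h1
  · have h2 : EE J s a b = (Z a b)⁻¹ • (Matrix.of fun d e => p.eval (x d / x e) * Z d e) := by
      ext d e
      simp only [EE, Matrix.of_apply, Matrix.smul_apply, smul_eq_mul]
      rw [hent]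
      by_cases hc : d = a ∧ e = b
      · have hc2 : ¬ (d = s b ∧ e = s a) := by
          rintro ⟨-, h4⟩
          exact hb (hc.2.symm.trans h4)
        rw [if_pos hc, if_neg hc2, if_pos (Or.inl hc), hc.1, hc.2]
        field_simp
        ring
      · by_cases hc2 : d = s b ∧ e = s a
        · rw [if_neg hc, if_pos hc2, if_pos (Or.inr hc2), hc2.1, hc2.2, hrel]
          field_simp
          ring
        · rw [if_neg hc, if_neg hc2, if_neg (by tauto)]
          ring
    rw [h2]
    exact 𝔤.smul_mem _ h1

/-- STEP 2 -/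
theorem tr (h : Dat x c J s 𝔤) {a b d : ι} (hab : a ≠ b) (hbd : b ≠ d) (had : a ≠ d)
    (h1 : EE J s a b ∈ 𝔤) (h2 : EE J s b d ∈ 𝔤) : EE J s a d ∈ 𝔤 := by
  classical
  refine root_of h (h.br _ h1 _ h2) had ?_
  rw [Matrix.sub_apply, Matrix.mul_apply, Matrix.mul_apply]
  have e1 : ∀ k, EE J s a b a k = (1 + if b = s a then 1 else 0) * (if k = b then 1 else 0) := by
    intro k
    simp only [EE, Matrix.of_apply]
    by_cases hb : b = s a
    · have hsb : s b = a := by rw [hb, h.ss]
      have hr : J a (s a) / J b (s b) = -1 := by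
        rw [hsb, hb, h.Js, div_neg, div_self (h.Jn a)]
      rw [hr, hsb, if_pos hb, ← hb]
      by_cases hk : k = b
      · simp [hk]
      · simp [hk]
    · have hsb : a ≠ s b := by
        intro h4
        apply hb
        rw [h4, h.ss]
      simp [hb, hsb]
  have e2 : ∀ k, EE J s b d k d = (1 + if b = s d then 1 else 0) * (if k = b then 1 else 0) := by
    intro k
    simp only [EE, Matrix.of_apply]
    by_cases hb : b = s d
    · have hsb : s b = d := by rw [hb, h.ss]
      have hr : J b (s b) / J d (s d) = -1 := by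
        rw [hsb, hb, h.Js, neg_div, div_self (h.Jn d)]
      rw [hr, hsb, if_pos hb, ← hb]
      by_cases hk : k = b
      · simp [hk]
      · simp [hk]
    · have hsb : d ≠ s b := by
        intro h4
        apply hb
        rw [h4, h.ss]
      simp [hb, hsb]
  have e3 : ∀ k, EE J s b d a k * EE J s a b k d = -(if d = s a then 1 else 0) *
      (if k = s b then 1 else 0) := by
    intro k
    simp only [EE, Matrix.of_apply]
    rw [if_neg (show ¬ (a = b ∧ k = d) from fun h' => hab h'.1),
      if_neg (show ¬ (k = a ∧ d = b) from fun h' => hbd h'.2.symm)]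
    by_cases hd : d = s a
    · have hsd : s d = a := by rw [hd, h.ss]
      by_cases hk : k = s b
      · rw [if_pos ⟨hsd.symm, hk⟩, if_pos ⟨hk, hd⟩, if_pos hd, if_pos hk]
        have hjb := h.Jn b
        have hja := h.Jn a
        rw [hsd, hd, h.Js]
        field_simp
        ring
      · rw [if_neg (fun h' => hk h'.2), if_neg hk]
        ring
    · rw [if_neg (show ¬ (k = s b ∧ d = s a) from fun h' => hd h'.2), if_neg hd]
      ring
  simp only [e1, e2, e3]
  have e4 : ∀ u v : F, ∑ k, (u * if k = b then (1 : F) else 0) * (v * if k = b then (1 : F) else 0) =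
      u * v := by
    intro u v
    rw [Finset.sum_eq_single b]
    · simp
    · intro k _ hk
      simp [hk]
    · intro hk
      exact absurd (Finset.mem_univ _) hk
  rw [e4, ← Finset.mul_sum, Finset.sum_ite_eq' Finset.univ (s b) (fun _ => (1 : F)),
    if_pos (Finset.mem_univ _)]
  have e5 : ((1 + if b = s a then (1 : F) else 0) * (1 + if b = s d then (1 : F) else 0) -
      -(if d = s a then (1 : F) else 0) * 1) =
      (((1 + if b = s a then 1 else 0) * (1 + if b = s d then 1 else 0) +
        if d = s a then 1 else 0 : ℕ) : F) := by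
    push_cast
    ring
  rw [e5]
  exact Nat.cast_ne_zero.2 (by positivity)

/-- STEP 3 -/
theorem all_off (h : Dat x c J s 𝔤) (a b : ι) (hab : a ≠ b) : EE J s a b ∈ 𝔤 := by
  classical
  by_contra hcon
  let W : Submodule F (ι → F) :=
    { carrier := {w | ∀ d, w d ≠ 0 → d = b ∨ EE J s d b ∈ 𝔤}
      add_mem' := by
        intro v w hv hw d hd
        by_cases h1 : v d = 0
        · refine hw d fun h2 => hd ?_
          rw [Pi.add_apply, h1, h2, add_zero]
        · exact hv d h1
      zero_mem' := fun d hd => absurd rfl hd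
      smul_mem' := by
        intro r v hv d hd
        refine hv d fun h1 => hd ?_
        rw [Pi.smul_apply, h1, smul_zero] }
  have hW : ∀ w, w ∈ W ↔ ∀ d, w d ≠ 0 → d = b ∨ EE J s d b ∈ 𝔤 := fun w => Iff.rfl
  have hst : ∀ Z ∈ 𝔤, ∀ w ∈ W, Z *ᵥ w ∈ W := by
    intro Z hZ w hw
    rw [hW] at hw ⊢
    intro d hd
    by_cases hdb : d = b
    · exact Or.inl hdb
    right
    have h1 : (Z *ᵥ w) d = ∑ e, Z d e * w e := rfl
    rw [h1] at hd
    obtain ⟨e, -, he⟩ := Finset.exists_ne_zero_of_sum_ne_zero hd
    have hZe : Z d e ≠ 0 := left_ne_zero_of_mul he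
    have hwe : w e ≠ 0 := right_ne_zero_of_mul he
    by_cases hde : d = e
    · rcases hw e hwe with h2 | h2
      · exact absurd (hde.trans h2) hdb
      · rw [hde]; exact h2
    · have h3 := root_of h hZ hde hZe
      rcases hw e hwe with h2 | h2
      · rw [← h2]; exact h3
      · by_cases heb : e = b
        · rw [← heb]; exact h3
        · exact tr h hde heb hdb h3 h2
  rcases h.irr W hst with h1 | h1
  · have h2 : Pi.single b (1 : F) ∈ W := by
      rw [hW]
      intro d hd
      left
      by_contra hne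
      exact hd (Pi.single_eq_of_ne hne 1)
    rw [h1, Submodule.mem_bot] at h2
    have h3 := congrFun h2 b
    rw [Pi.single_eq_same] at h3
    exact one_ne_zero h3
  · have h2 : Pi.single a (1 : F) ∈ W := by
      rw [h1]
      exact Submodule.mem_top
    rcases (hW _).1 h2 a (by rw [Pi.single_eq_same]; exact one_ne_zero) with h3 | h3
    · exact hab h3
    · exact hcon h3

/-- STEP 4 -/
theorem all_diag (h : Dat x c J s 𝔤) (a : ι) : EE J s a a ∈ 𝔤 := by
  classical
  have h1 := all_off h a (s a) (h.sne a).symm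
  have h2 := all_off h (s a) a (h.sne a)
  have h3 := 𝔤.smul_mem ((1 : F) / 4) (h.br _ h1 _ h2)
  have hja := h.Jn a
  have f1 : ∀ p q, EE J s a (s a) p q = if p = a ∧ q = s a then 2 else 0 := by
    intro p q
    simp only [EE, Matrix.of_apply]
    rw [h.ss, h.Js, div_neg, div_self hja]
    by_cases hc : p = a ∧ q = s a
    · rw [if_pos hc, if_pos hc]; norm_num
    · rw [if_neg hc, if_neg hc]; norm_num
  have f2 : ∀ p q, EE J s (s a) a p q = if p = s a ∧ q = a then 2 else 0 := by
    intro p q
    simp only [EE, Matrix.of_apply]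
    rw [h.ss, h.Js, neg_div, div_self hja]
    by_cases hc : p = s a ∧ q = a
    · rw [if_pos hc, if_pos hc]; norm_num
    · rw [if_neg hc, if_neg hc]; norm_num
  have h4 : EE J s a a = ((1 : F) / 4) • (EE J s a (s a) * EE J s (s a) a -
      EE J s (s a) a * EE J s a (s a)) := by
    ext p q
    rw [Matrix.smul_apply, Matrix.sub_apply, Matrix.mul_apply, Matrix.mul_apply]
    simp only [f1, f2]
    have g1 : ∑ k, (if p = a ∧ k = s a then (2 : F) else 0) * (if k = s a ∧ q = a then (2 : F) else 0) =
        if p = a ∧ q = a then 4 else 0 := by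
      rw [Finset.sum_eq_single (s a)]
      · by_cases hp : p = a <;> by_cases hq : q = a <;> (simp [hp, hq]; try norm_num)
      · intro k _ hk
        simp [hk]
      · intro hk
        exact absurd (Finset.mem_univ _) hk
    have g2 : ∑ k, (if p = s a ∧ k = a then (2 : F) else 0) * (if k = a ∧ q = s a then (2 : F) else 0) =
        if p = s a ∧ q = s a then 4 else 0 := by
      rw [Finset.sum_eq_single a]
      · by_cases hp : p = s a <;> by_cases hq : q = s a <;> (simp [hp, hq]; try norm_num)
      · intro k _ hk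
        simp [hk]
      · intro hk
        exact absurd (Finset.mem_univ _) hk
    rw [g1, g2]
    simp only [EE, Matrix.of_apply, smul_eq_mul]
    rw [div_self hja]
    by_cases hp : p = a ∧ q = a
    · have : ¬ (p = s a ∧ q = s a) := fun h' => h.sne a (h'.1.symm.trans hp.1)
      rw [if_pos hp, if_neg this, if_pos hp, if_neg this]
      norm_num
    · rw [if_neg hp, if_neg hp]
      by_cases hq : p = s a ∧ q = s a
      · rw [if_pos hq, if_pos hq]
        norm_num
      · rw [if_neg hq, if_neg hq]
        norm_num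
  rw [h4]
  exact h3

/-- the theorem in the eigenbasis -/
theorem diag (h : Dat x c J s 𝔤) (X : Matrix ι ι F) (hX : Xᵀ * J + J * X = 0) : X ∈ 𝔤 := by
  classical
  have hrel : ∀ a b, X (s b) (s a) = -(J a (s a) / J b (s b)) * X a b := by
    intro a b
    have h2 := rel h (Z := X) (μ := 0) (by rw [hX, zero_smul]) b a
    rw [zero_mul] at h2
    have hjb := h.Jn b
    field_simp
    linear_combination h2
  have h1 : X = ((1 : F) / 2) • ∑ a, ∑ b, X a b • EE J s a b := by
    ext d e
    rw [Matrix.smul_apply, Matrix.sum_apply]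
    simp only [Matrix.sum_apply, Matrix.smul_apply, smul_eq_mul, EE, Matrix.of_apply]
    have g1 : ∀ a b, X a b * ((if d = a ∧ e = b then (1 : F) else 0) -
        J a (s a) / J b (s b) * (if d = s b ∧ e = s a then (1 : F) else 0)) =
        (if d = a then (if e = b then X d e else 0) else 0) +
        (if s e = a then (if s d = b then X d e else 0) else 0) := by
      intro a b
      have g2 : (if d = a ∧ e = b then (1 : F) else 0) * X a b =
          (if d = a then (if e = b then X d e else 0) else 0) := by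
        by_cases hd : d = a <;> by_cases he : e = b <;> simp [hd, he]
      have g3 : -(J a (s a) / J b (s b)) * X a b * (if d = s b ∧ e = s a then (1 : F) else 0) =
          (if s e = a then (if s d = b then X d e else 0) else 0) := by
        by_cases hd : s d = b
        · by_cases he : s e = a
          · have hd' : d = s b := by rw [← hd, h.ss]
            have he' : e = s a := by rw [← he, h.ss]
            rw [if_pos ⟨hd', he'⟩, if_pos he, if_pos hd, mul_one, ← hrel, ← hd', ← he']
          · rw [if_neg (fun h' => he (by rw [h'.2, h.ss])), if_neg he, mul_zero]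
        · rw [if_neg (fun h' => hd (by rw [h'.1, h.ss])), if_neg hd, ite_self, mul_zero]
      rw [← g2, ← g3]
      ring
    simp only [g1, Finset.sum_add_distrib]
    simp
    ring
  rw [h1]
  refine 𝔤.smul_mem _ (𝔤.sum_mem fun a _ => 𝔤.sum_mem fun b _ => 𝔤.smul_mem _ ?_)
  by_cases hab : a = b
  · rw [hab]; exact all_diag h b
  · exact all_off h a b hab

end

end Pool.Agent.Y929.ZS
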