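import Pool.Agent.Y142.ZS.Stm
import Pool.Agent.Y929.ZS.Diag

/-! ZS-ROOT (job 3149, helper929 for helper142): the full symplectic Lie algebra from one generic element -/

set_option autoImplicit false

open Matrix Polynomial

namespace Pool.Agent.Y929.ZS

/-- diagonalisation -/
theorem exists_diag {F : Type} [Field F] {N : ℕ} (g : Matrix (Fin N) (Fin N) F)
    (hs : g.charpoly.Splits) (hsep : g.charpoly.Separable) :
    ∃ (x : Fin N → F) (P : Matrix (Fin N) (Fin N) F), Function.Injective x ∧ IsUnit P ∧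
      g * P = P * diagonal x ∧ ∀ a, aeval (x a) g.charpoly = 0 := by
  classical
  have hne : g.charpoly ≠ 0 := g.charpoly_monic.ne_zero
  have hnd : g.charpoly.roots.Nodup := Polynomial.nodup_roots hsep
  have hcard : g.charpoly.roots.toFinset.card = N := by
    rw [Multiset.toFinset_card_of_nodup hnd, ← hs.natDegree_eq_card_roots, g.charpoly_natDegree_eq_dim,
      Fintype.card_fin]
  let e := (g.charpoly.roots.toFinset.equivFinOfCardEq hcard).symm
  let x : Fin N → F := fun a => (e a : F)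
  have hx : Function.Injective x := Subtype.val_injective.comp e.injective
  have hroot : ∀ a, g.charpoly.IsRoot (x a) := fun a =>
    (Polynomial.mem_roots hne).1 (Multiset.mem_toFinset.1 (e a).2)
  have hv : ∀ a, ∃ v : Fin N → F, v ≠ 0 ∧ g *ᵥ v = x a • v := by
    intro a
    have h1 := hroot a
    rw [Polynomial.IsRoot.def, Matrix.eval_charpoly] at h1
    obtain ⟨v, hv0, hv⟩ := Matrix.exists_mulVec_eq_zero_iff.2 h1
    refine ⟨v, hv0, ?_⟩
    rw [Matrix.sub_mulVec, sub_eq_zero] at hv
    rw [← hv, Matrix.scalar_apply, ← Matrix.smul_one_eq_diagonal, Matrix.smul_mulVec, Matrix.one_mulVec]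
  choose v hv0 hv using hv
  have hli : LinearIndependent F v := by
    refine Module.End.eigenvectors_linearIndependent' (Matrix.toLin' g) x hx v fun a => ?_
    refine ⟨?_, hv0 a⟩
    rw [Module.End.mem_eigenspace_iff, Matrix.toLin'_apply]
    exact hv a
  refine ⟨x, Matrix.of fun i j => v j i, hx, ?_, ?_, fun a => ?_⟩
  · rw [← Matrix.linearIndependent_cols_iff_isUnit]
    exact hli
  · ext i j
    rw [Matrix.mul_apply, Matrix.mul_diagonal]
    have := congrFun (hv j) i
    simp only [Matrix.mulVec, dotProduct, Pi.smul_apply, smul_eq_mul] at this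
    simp only [Matrix.of_apply]
    rw [this, mul_comm]
  · have h1 := hroot a
    rw [Polynomial.coe_aeval_eq_eval]
    exact h1

theorem t_root : Pool.Agent.Y142.ZS.S_ROOT := by
  classical
  intro F _ _ N J g c 𝔤 hJ hJd hc hsim hs hsep hgen h𝔤 hbr had hirr X hX
  obtain ⟨x, P, hx, hP, hgP, hroot⟩ := exists_diag g hs hsep
  have hPd : IsUnit P.det := (Matrix.isUnit_iff_isUnit_det P).1 hP
  have hPi : P⁻¹ * P = 1 := Matrix.nonsing_inv_mul P hPd
  have hPi' : P * P⁻¹ = 1 := Matrix.mul_nonsing_inv P hPd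
  obtain ⟨J', hJ'⟩ : ∃ J' : Matrix (Fin N) (Fin N) F, J' = Pᵀ * J * P := ⟨_, rfl⟩
  have hgd : g = P * diagonal x * P⁻¹ := by
    rw [← hgP, mul_assoc, hPi', mul_one]
  -- `g` is invertible
  have hdet : g.det ≠ 0 := by
    intro h0
    have h1 := congrArg Matrix.det hsim
    rw [Matrix.det_mul, Matrix.det_mul, h0, mul_zero, Matrix.det_smul] at h1
    exact mul_ne_zero (pow_ne_zero _ hc) hJd h1.symm
  have hx0 : ∀ a, x a ≠ 0 := by
    intro a ha
    apply hdet
    rw [hgd, Matrix.det_mul, Matrix.det_mul, Matrix.det_diagonal,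
      Finset.prod_eq_zero (Finset.mem_univ a) ha, mul_zero, zero_mul]
  have hDJ : diagonal x * J' * diagonal x = c • J' := by
    have h1 : (P * diagonal x)ᵀ * J * (P * diagonal x) = c • J' := by
      rw [← hgP, Matrix.transpose_mul]
      calc Pᵀ * gᵀ * J * (g * P) = Pᵀ * (gᵀ * J * g) * P := by noncomm_ring
        _ = c • J' := by
          rw [hsim, hJ']
          simp [mul_assoc]
    rw [← h1, Matrix.transpose_mul, Matrix.diagonal_transpose, hJ']
    noncomm_ring
  have hent : ∀ a b, x a * x b * J' a b = c * J' a b := by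
    intro a b
    have h1 := congrFun (congrFun hDJ a) b
    rw [Matrix.mul_diagonal, Matrix.diagonal_mul, Matrix.smul_apply, smul_eq_mul] at h1
    rw [← h1]
    ring
  have hJt : J'ᵀ = -J' := by
    rw [hJ', Matrix.transpose_mul, Matrix.transpose_mul, Matrix.transpose_transpose, hJ]
    noncomm_ring
  have hJs : ∀ a b, J' b a = -J' a b := by
    intro a b
    have h1 := congrFun (congrFun hJt a) b
    rw [Matrix.transpose_apply, Matrix.neg_apply] at h1
    exact h1
  have hJd' : J'.det ≠ 0 := by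
    rw [hJ', Matrix.det_mul, Matrix.det_mul, Matrix.det_transpose]
    exact mul_ne_zero (mul_ne_zero hPd.ne_zero hJd) hPd.ne_zero
  have hex : ∀ a, ∃ b, J' a b ≠ 0 := by
    intro a
    by_contra hcon
    push Not at hcon
    exact hJd' (Matrix.det_eq_zero_of_row_eq_zero a hcon)
  choose s hsn using hex
  have hxs : ∀ a, x a * x (s a) = c := fun a => mul_right_cancel₀ (hsn a) (hent a (s a))
  have huniq : ∀ a b, J' a b ≠ 0 → b = s a := by
    intro a b hb
    have h1 := mul_right_cancel₀ hb (hent a b)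
    apply hx
    exact mul_left_cancel₀ (hx0 a) (h1.trans (hxs a).symm)
  have hss : ∀ a, s (s a) = a := by
    intro a
    refine (huniq (s a) a ?_).symm
    rw [hJs a (s a)]
    exact neg_ne_zero.2 (hsn a)
  have hsne : ∀ a, s a ≠ a := by
    intro a ha
    have h1 := hsn a
    rw [ha] at h1
    have h2 := hJs a a
    have h3 : (2 : F) * J' a a = 0 := by linear_combination h2
    rcases mul_eq_zero.1 h3 with h4 | h4
    · norm_num at h4
    · exact h1 h4
  -- the conjugated Lie algebra
  let φ : Matrix (Fin N) (Fin N) F →ₗ[F] Matrix (Fin N) (Fin N) F :=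
    { toFun := fun Z => P * Z * P⁻¹
      map_add' := fun Z W => by rw [mul_add, add_mul]
      map_smul' := fun r Z => by simp }
  have hφ : ∀ Z, φ Z = P * Z * P⁻¹ := fun Z => rfl
  let 𝔥 : Submodule F (Matrix (Fin N) (Fin N) F) := 𝔤.comap φ
  have h𝔥 : ∀ Z, Z ∈ 𝔥 ↔ P * Z * P⁻¹ ∈ 𝔤 := fun Z => Iff.rfl
  have hback : ∀ Z, P * (P⁻¹ * Z * P) * P⁻¹ = Z := by
    intro Z
    calc P * (P⁻¹ * Z * P) * P⁻¹ = (P * P⁻¹) * Z * (P * P⁻¹) := by noncomm_ring
      _ = Z := by rw [hPi', one_mul, mul_one]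
  have hconv : ∀ (Z : Matrix (Fin N) (Fin N) F) (μ : F), (P * Z * P⁻¹)ᵀ * J + J * (P * Z * P⁻¹) = μ • J →
      Zᵀ * J' + J' * Z = μ • J' := by
    intro Z μ h1
    have h2 : (P * Z * P⁻¹)ᵀ = P⁻¹ᵀ * Zᵀ * Pᵀ := by
      rw [Matrix.transpose_mul, Matrix.transpose_mul, mul_assoc]
    have h3 : Pᵀ * P⁻¹ᵀ = 1 := by rw [← Matrix.transpose_mul, hPi, Matrix.transpose_one]
    calc Zᵀ * J' + J' * Z = (Pᵀ * P⁻¹ᵀ) * Zᵀ * (Pᵀ * J * P) + (Pᵀ * J * P) * Z * (P⁻¹ * P) := by
          rw [h3, hPi, one_mul, mul_one, hJ']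
      _ = Pᵀ * ((P⁻¹ᵀ * Zᵀ * Pᵀ) * J + J * (P * Z * P⁻¹)) * P := by noncomm_ring
      _ = Pᵀ * (μ • J) * P := by rw [← h2, h1]
      _ = μ • J' := by rw [hJ']; simp [mul_assoc]
  have dat : Dat x c J' s 𝔥 := by
    refine ⟨hx0, hxs, hss, hsne, ?_, hsn, ?_, ?_, ?_, ?_, ?_, ?_⟩
    · intro a b hb
      by_contra hne
      exact hb (huniq a b hne)
    · intro a
      exact hJs a (s a)
    · intro a b d e hab heq
      have hmap : ∀ a, aeval (algebraMap F (AlgebraicClosure F) (x a)) g.charpoly = 0 := by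
        intro a
        rw [Polynomial.aeval_algebraMap_apply, hroot a, map_zero]
      have hinj := (algebraMap F (AlgebraicClosure F)).injective
      have h1 := hgen _ _ _ _ (hmap a) (hmap b) (hmap d) (hmap e)
        (fun h' => hab (hx (hinj h'))) (by rw [← map_mul, ← map_mul, heq])
      rcases h1 with ⟨h2, h3⟩ | ⟨h2, h3⟩
      · exact Or.inl ⟨hx (hinj h2), hx (hinj h3)⟩
      · right
        rw [← map_mul] at h2 h3
        have h2' := hinj h2
        have h3' := hinj h3
        refine ⟨hx ?_, hx ?_⟩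
        · refine mul_right_cancel₀ (hx0 b) ?_
          rw [h2', mul_comm, hxs]
        · refine mul_right_cancel₀ (hx0 a) ?_
          rw [h3', mul_comm, hxs]
    · intro Z hZ
      obtain ⟨μ, hμ⟩ := h𝔤 _ ((h𝔥 Z).1 hZ)
      exact ⟨μ, hconv Z μ hμ⟩
    · intro Z hZ W hW
      rw [h𝔥] at hZ hW ⊢
      have h1 := hbr _ hZ _ hW
      have h2 : P * (Z * W - W * Z) * P⁻¹ = P * Z * P⁻¹ * (P * W * P⁻¹) - P * W * P⁻¹ * (P * Z * P⁻¹) := by
        calc P * (Z * W - W * Z) * P⁻¹ = P * Z * 1 * W * P⁻¹ - P * W * 1 * Z * P⁻¹ := by noncomm_ring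
          _ = _ := by
            rw [← hPi]
            noncomm_ring
      rw [h2]
      exact h1
    · intro Z hZ
      rw [h𝔥] at hZ ⊢
      have h1 := had _ hZ
      have hdx : IsUnit (diagonal x).det := by
        rw [Matrix.det_diagonal]
        exact IsUnit.mk0 _ (Finset.prod_ne_zero_iff.2 fun a _ => hx0 a)
      have h2 : (Matrix.of fun a b => x a / x b * Z a b) = diagonal x * Z * diagonal (fun a => (x a)⁻¹) := by
        ext a b
        rw [Matrix.mul_diagonal, Matrix.diagonal_mul, Matrix.of_apply]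
        ring
      have h3 : g⁻¹ = P * diagonal (fun a => (x a)⁻¹) * P⁻¹ := by
        refine Matrix.inv_eq_right_inv ?_
        have h4 : diagonal x * diagonal (fun a => (x a)⁻¹) = 1 := by
          rw [Matrix.diagonal_mul_diagonal, ← Matrix.diagonal_one]
          congr 1
          ext a
          exact mul_inv_cancel₀ (hx0 a)
        calc g * (P * diagonal (fun a => (x a)⁻¹) * P⁻¹) =
            P * diagonal x * (P⁻¹ * P) * diagonal (fun a => (x a)⁻¹) * P⁻¹ := by
              rw [hgd]
              noncomm_ring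
          _ = P * (diagonal x * diagonal (fun a => (x a)⁻¹)) * P⁻¹ := by
            rw [hPi]
            noncomm_ring
          _ = 1 := by rw [h4, mul_one, hPi']
      have h5 : P * (Matrix.of fun a b => x a / x b * Z a b) * P⁻¹ = g * (P * Z * P⁻¹) * g⁻¹ := by
        rw [h2, h3]
        calc P * (diagonal x * Z * diagonal fun a => (x a)⁻¹) * P⁻¹ =
            (P * diagonal x) * 1 * Z * 1 * (diagonal fun a => (x a)⁻¹) * P⁻¹ := by noncomm_ring
          _ = (P * diagonal x) * (P⁻¹ * P) * Z * (P⁻¹ * P) * (diagonal fun a => (x a)⁻¹) * P⁻¹ := by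
            rw [hPi]
          _ = (P * diagonal x * P⁻¹) * (P * Z * P⁻¹) * (P * (diagonal fun a => (x a)⁻¹) * P⁻¹) := by
            noncomm_ring
          _ = _ := by rw [← hgd]
      rw [h5]
      exact h1
    · intro W hW
      have hinj : Function.Injective (Matrix.toLin' P) := by
        intro v w hvw
        rw [Matrix.toLin'_apply, Matrix.toLin'_apply] at hvw
        have h1 := congrArg (fun u => P⁻¹ *ᵥ u) hvw
        simp only [Matrix.mulVec_mulVec, hPi, Matrix.one_mulVec] at h1
        exact h1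
      have hstab : ∀ Z ∈ 𝔤, ∀ w ∈ W.map (Matrix.toLin' P), Z *ᵥ w ∈ W.map (Matrix.toLin' P) := by
        rintro Z hZ _ ⟨w, hw, rfl⟩
        have h1 : P⁻¹ * Z * P ∈ 𝔥 := by
          rw [h𝔥, hback]
          exact hZ
        refine ⟨(P⁻¹ * Z * P) *ᵥ w, hW _ h1 w hw, ?_⟩
        rw [Matrix.toLin'_apply, Matrix.toLin'_apply, Matrix.mulVec_mulVec, Matrix.mulVec_mulVec]
        congr 1
        calc P * (P⁻¹ * Z * P) = (P * P⁻¹) * Z * P := by noncomm_ring
          _ = Z * P := by rw [hPi', one_mul]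
      rcases hirr _ hstab with h1 | h1
      · left
        rw [eq_bot_iff]
        intro w hw
        have h2 : Matrix.toLin' P w ∈ W.map (Matrix.toLin' P) := ⟨w, hw, rfl⟩
        rw [h1, Submodule.mem_bot, ← map_zero (Matrix.toLin' P)] at h2
        exact (Submodule.mem_bot F).2 (hinj h2)
      · right
        rw [eq_top_iff]
        intro w _
        have h2 : Matrix.toLin' P w ∈ W.map (Matrix.toLin' P) := by rw [h1]; exact Submodule.mem_top
        obtain ⟨w', hw', h3⟩ := h2
        rw [← hinj h3]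
        exact hw'
  -- conclusion
  have h1 := diag dat (P⁻¹ * X * P) (by
    have h2 := hconv (P⁻¹ * X * P) 0 (by
      rw [hback, zero_smul]
      exact hX)
    rw [zero_smul] at h2
    exact h2)
  rw [h𝔥, hback] at h1
  exact h1

end Pool.Agent.Y929.ZS
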